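import Mathlib
import Pool.Agent.U337.LLL

set_option autoImplicit false

namespace Pool.Agent.Results.MP_511665_al.LocalLoopLemma

/-- `(a 0, …, a (l-1))` is an odd cycle of `R`: distinct elements, `l ≥ 3` odd, consecutive
elements (cyclically) are related. -/
def IsOddCycle {A : Type*} (R : A → A → Prop) (l : ℕ) (a : Fin l → A) : Prop :=
  3 ≤ l ∧ Odd l ∧ Function.Injective a ∧
    (∀ i j : Fin l, (j : ℕ) = (i : ℕ) + 1 → R (a i) (a j)) ∧
    (∀ i j : Fin l, (i : ℕ) = l - 1 → (j : ℕ) = 0 → R (a i) (a j))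

/-- `f` is idempotent -/
def IsIdempotent {A : Type*} {n : ℕ} (f : (Fin n → A) → A) : Prop :=
  ∀ x : A, f (fun _ => x) = x

/-- `f` is compatible with `R` -/
def IsCompatible {A : Type*} {n : ℕ} (f : (Fin n → A) → A) (R : A → A → Prop) : Prop :=
  ∀ x y : Fin n → A, (∀ i, R (x i) (y i)) → R (f x) (f y)

/-- `B` absorbs `C` with respect to `f`: replacing one argument (in any position `j`) of a tuple
of elements of `B` by an element of `C` gives a value in `B`. -/
def Absorbs {A : Type*} {n : ℕ} (f : (Fin n → A) → A) (B C : Set A) : Prop :=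
  ∀ (j : Fin n) (b : Fin n → A) (c : A), (∀ i, b i ∈ B) → c ∈ C → f (Function.update b j c) ∈ B

theorem main {A : Type*} (R : A → A → Prop) (hsymm : ∀ x y, R x y → R y x)
    (l : ℕ) (a : Fin l → A) (hcyc : IsOddCycle R l a)
    (n : ℕ) (_hn : 1 ≤ n) (f : (Fin n → A) → A) (hid : IsIdempotent f) (hcomp : IsCompatible f R)
    (a₁ : A) (ha₁ : ∀ i : Fin l, (i : ℕ) = 0 → a i = a₁)
    (habs : Absorbs f {b : A | R a₁ b} {a₁}) :
    ∃ x : A, R x x := by
  obtain ⟨hl3, hodd, _, hc1, hc2⟩ := hcyc
  obtain ⟨m, hm⟩ := hodd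
  have hl : 0 < l := by omega
  have hm1 : 1 ≤ m := by omega
  -- cyclic extension of the cycle
  have hstep : ∀ t : ℕ, R (a ⟨t % l, Nat.mod_lt _ hl⟩) (a ⟨(t + 1) % l, Nat.mod_lt _ hl⟩) := by
    intro t
    by_cases h : t % l = l - 1
    · apply hc2
      · exact h
      · show (t + 1) % l = 0
        rw [Nat.add_mod, h]
        have : (l - 1 + 1 % l) = l := by
          rw [Nat.mod_eq_of_lt (by omega)]; omega
        rw [this, Nat.mod_self]
    · apply hc1
      show (t + 1) % l = t % l + 1
      have h1 := Nat.mod_lt t hl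
      rw [Nat.add_mod, Nat.mod_eq_of_lt (a := 1) (by omega), Nat.mod_eq_of_lt (by omega)]
  -- the two walks
  let e : ℕ → A := fun t => a ⟨t % l, Nat.mod_lt _ hl⟩
  let g : ℕ → A := fun t => a ⟨(l * (t + 1) - t) % l, Nat.mod_lt _ hl⟩
  have he : Pool.Agent.U337.LLL.Hon R a₁ e := by
    refine ⟨ha₁ _ ?_, hstep⟩
    show 0 % l = 0
    exact Nat.zero_mod l
  have hlt : ∀ t, t ≤ l * t := fun t => Nat.le_mul_of_pos_left t hl
  have hg : Pool.Agent.U337.LLL.Hon R a₁ g := by
    refine ⟨ha₁ _ ?_, ?_⟩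
    · show (l * (0 + 1) - 0) % l = 0
      simp
    · intro t
      have h := hstep (l * (t + 1 + 1) - (t + 1))
      have e1 : (l * (t + 1 + 1) - (t + 1) + 1) % l = (l * (t + 1) - t) % l := by
        have h0 := hlt (t + 1)
        have h2 : l * (t + 1 + 1) - (t + 1) + 1 = (l * (t + 1) - t) + l := by
          have : l * (t + 1 + 1) = l * (t + 1) + l := by ring
          omega
        rw [h2, Nat.add_mod_right]
      have : R (g (t + 1)) (g t) := by
        show R (a ⟨(l * (t + 1 + 1) - (t + 1)) % l, _⟩) (a ⟨(l * (t + 1) - t) % l, _⟩)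
        have e2 : (⟨(l * (t + 1 + 1) - (t + 1) + 1) % l, Nat.mod_lt _ hl⟩ : Fin l) =
            ⟨(l * (t + 1) - t) % l, Nat.mod_lt _ hl⟩ := Fin.ext e1
        rw [← e2]; exact h
      exact hsymm _ _ this
  have heg : R (e m) (g m) := by
    have h := hstep m
    have e1 : (m + 1) % l = (l * (m + 1) - m) % l := by
      have h0 := hlt (m + 1)
      have h2 : l * (m + 1) - m = (m + 1) + l * m := by
        have : l * (m + 1) = l * m + l := by ring
        omega
      rw [h2, Nat.add_mul_mod_self_left]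
    have e2 : (⟨(m + 1) % l, Nat.mod_lt _ hl⟩ : Fin l) =
        ⟨(l * (m + 1) - m) % l, Nat.mod_lt _ hl⟩ := Fin.ext e1
    show R (a ⟨m % l, _⟩) (a ⟨(l * (m + 1) - m) % l, _⟩)
    rw [← e2]; exact h
  have hoc : R a₁ (e 1) := by
    have := he.2 0
    rwa [he.1] at this
  refine Pool.Agent.U337.LLL.loop_of_walks (o := a₁) (c := e 1) (f := f) (e := e) (g := g) (m := m)
    hsymm hoc hid hcomp ?_ he hg hm1 heg
  intro j b hb hbj
  have h := habs j (fun i => if i = j then e 1 else b i) a₁ ?_ rfl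
  · have e3 : Function.update (fun i => if i = j then e 1 else b i) j a₁ = b := by
      funext i
      by_cases hij : i = j
      · subst hij; simp [hbj]
      · simp [hij]
    rw [e3] at h
    exact h
  · intro i
    show R a₁ _
    by_cases hij : i = j
    · simp only [if_pos hij]; exact hoc
    · simp only [if_neg hij]; exact hb i hij

/-- **Local loop lemma for odd cycles.**  Let `R` be a symmetric relation on a set `A` containing an
odd cycle `(a_1, …, a_l)` (here indexed by `0, …, l-1`), and let `f` be an operation on `A` of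
arity `n ≥ 1` which is idempotent, compatible with `R`, and such that the neighbourhood of `a_1`
absorbs `{a_1}` with respect to `f`.  Then `R` contains a loop. -/
theorem result {A : Type*} (R : A → A → Prop) (hsymm : ∀ x y, R x y → R y x)
    (l : ℕ) (hl : 0 < l) (a : Fin l → A) (hcyc : IsOddCycle R l a)
    (n : ℕ) (hn : 1 ≤ n) (f : (Fin n → A) → A) (hid : IsIdempotent f) (hcomp : IsCompatible f R)
    (habs : Absorbs f {b : A | R (a ⟨0, hl⟩) b} {a ⟨0, hl⟩}) :
    ∃ x : A, R x x := by
  refine main R hsymm l a hcyc n hn f hid hcomp (a ⟨0, hl⟩) ?_ habs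
  intro i hi
  congr 1
  exact Fin.ext hi

end Pool.Agent.Results.MP_511665_al.LocalLoopLemma
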